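import Pool.Agent.W486.AG.Stm

/-!
Project G0, part ANA (helper372): the graph is analytic.
-/

set_option autoImplicit false

namespace Pool.Agent.W372.AG

open Pool.Agent.W486.AG MeasureTheory

/-! ### Continuous functions to discrete spaces and closed conditions -/

section Cl

variable {Y : Type} [TopologicalSpace Y]

theorem clopen_of {D : Type} [TopologicalSpace D] [DiscreteTopology D] {f : Y → D}
    (hf : Continuous f) (p : D → Prop) : IsClopen {y | p (f y)} :=
  (isClopen_discrete {d | p d}).preimage hf

theorem clopen_of2 {D D' : Type} [TopologicalSpace D] [DiscreteTopology D] [TopologicalSpace D']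
    [DiscreteTopology D'] {f : Y → D} {g : Y → D'} (hf : Continuous f) (hg : Continuous g)
    (p : D → D' → Prop) : IsClopen {y | p (f y) (g y)} :=
  clopen_of (hf.prodMk hg) (fun q => p q.1 q.2)

theorem cl_and {p q : Y → Prop} (hp : IsClosed {y | p y}) (hq : IsClosed {y | q y}) :
    IsClosed {y | p y ∧ q y} := hp.inter hq

theorem cl_or {p q : Y → Prop} (hp : IsClosed {y | p y}) (hq : IsClosed {y | q y}) :
    IsClosed {y | p y ∨ q y} := hp.union hq

theorem cl_all {I : Sort*} {p : I → Y → Prop} (hp : ∀ i, IsClosed {y | p i y}) :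
    IsClosed {y | ∀ i, p i y} := by
  rw [Set.ofPred_forall]
  exact isClosed_iInter hp

theorem cl_imp {p q : Y → Prop} (hp : IsOpen {y | p y}) (hq : IsClosed {y | q y}) :
    IsClosed {y | p y → q y} := by
  have h : {y | p y → q y} = {y | p y}ᶜ ∪ {y | q y} := by
    ext y
    simp only [Set.mem_union, Set.mem_compl_iff, Set.mem_ofPred_eq]
    tauto
  rw [h]
  exact hp.isClosed_compl.union hq

end Cl

/-! ### The components of the labels -/

abbrev Tr := List ℕ → Lab

theorem polPi (I : Type) [Countable I] (D : I → Type) [∀ i, TopologicalSpace (D i)]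
    [∀ i, PolishSpace (D i)] : PolishSpace (∀ i, D i) := inferInstance

theorem polLab : PolishSpace Lab := inferInstance

instance polTr : PolishSpace Tr :=
  @polPi (List ℕ) inferInstance (fun _ => Lab) (fun _ => inferInstance) (fun _ => polLab)

theorem c_tl (s : List ℕ) : Continuous (fun T : Tr => tl (T s)) :=
  continuous_fst.comp (continuous_apply s)

theorem c_hd (s : List ℕ) : Continuous (fun T : Tr => hd (T s)) :=
  continuous_fst.comp (continuous_snd.comp (continuous_apply s))

theorem c_dl (s : List ℕ) : Continuous (fun T : Tr => dl (T s)) :=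
  continuous_fst.comp (continuous_snd.comp (continuous_snd.comp (continuous_apply s)))

theorem c_al (s : List ℕ) : Continuous (fun T : Tr => al (T s)) :=
  continuous_fst.comp (continuous_snd.comp (continuous_snd.comp
    (continuous_snd.comp (continuous_apply s))))

theorem c_dp (s : List ℕ) : Continuous (fun T : Tr => dp (T s)) :=
  continuous_snd.comp (continuous_snd.comp (continuous_snd.comp
    (continuous_snd.comp (continuous_apply s))))

theorem c_uu (s : List ℕ) (k : ℕ) : Continuous (fun T : Tr => uu (fun j => T (s ++ [j])) k) := by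
  cases k with
  | zero => exact c_hd (s ++ [0])
  | succ k => exact c_tl (s ++ [2 * k + 2])

theorem c_at {f : Tr → X} (hf : Continuous f) (m : ℕ) : Continuous (fun T => (f T) m) :=
  (continuous_coord m).comp hf

theorem c_code (h : S_CODE1) (s : List ℕ) (k : ℕ) :
    Continuous (fun T : Tr => code (tl (T s)) (hd (T s)) k) :=
  (h k).comp ((c_tl s).prodMk (c_hd s))

theorem cl_shift (s : List ℕ) : IsClosed {T : Tr | hd (T s) = shift (dl (T s)) (tl (T s))} := by
  have h : {T : Tr | hd (T s) = shift (dl (T s)) (tl (T s))} =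
      {T : Tr | ∀ m, (hd (T s)) m = (tl (T s)) m * kill m (FreeGroup.of (dl (T s)))} := by
    ext T
    constructor
    · intro h m
      exact congrArg (fun x : X => x m) h
    · intro h
      exact X.ext h
  rw [h]
  refine cl_all fun m => ?_
  have h1 := clopen_of2 ((c_at (c_hd s) m).prodMk (c_at (c_tl s) m)) (c_dl s)
    (fun q d => q.1 = q.2 * kill m (FreeGroup.of d))
  exact h1.isClosed

theorem cl_Node (h : S_CODE1) (s : List ℕ) :
    IsClosed {T : Tr | Node (T s) (fun j => T (s ++ [j]))} := by
  unfold Node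
  refine cl_and ?_ (cl_or ?_ ?_)
  · refine cl_all fun m => cl_imp ?_ ?_
    · exact (clopen_of (c_dl s) (fun d => m < d)).isOpen
    · exact isClosed_eq (c_at (c_tl s) m) (c_at (c_hd s) m)
  · refine cl_and ?_ (cl_and ?_ ?_)
    · exact isClosed_eq (c_dp s) continuous_const
    · exact isClosed_eq (c_al s) (c_dl s)
    · exact cl_shift s
  · refine cl_and ?_ (cl_and ?_ (cl_and ?_ (cl_and ?_ (cl_and ?_ (cl_and ?_ (cl_and ?_
      (cl_and ?_ (cl_and ?_ (cl_and ?_ ?_)))))))))
    · exact (clopen_of2 (c_dp s) (c_dp (s ++ [0])) (fun a b => a = b + 1)).isClosed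
    · exact isClosed_eq (c_dl s) (c_dl (s ++ [0]))
    · exact isClosed_eq (c_tl (s ++ [0])) (c_tl s)
    · exact (clopen_of2 (c_al (s ++ [0])) (c_al s) (fun a b => a < b)).isClosed
    · exact isClosed_eq (c_dl (s ++ [1])) (c_al s)
    · exact isClosed_eq (c_tl (s ++ [1])) (c_hd s)
    · exact (clopen_of2 (c_al (s ++ [1])) (c_dl (s ++ [2])) (fun a b => a < b)).isClosed
    · refine cl_all fun k => ?_
      exact (clopen_of2 (c_dl (s ++ [2 * k + 2])) (c_dl (s ++ [2 * k + 4]))
        (fun a b => a < b)).isClosed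
    · refine cl_all fun k => cl_imp ?_ (cl_and ?_ (cl_and ?_ ?_))
      · exact (clopen_of (c_code h s k) (fun b => b = true)).isOpen
      · exact isClosed_eq (c_tl (s ++ [2 * k + 3])) (c_hd (s ++ [2 * k + 2]))
      · exact isClosed_eq (c_hd (s ++ [2 * k + 3])) (c_uu s k)
      · exact (clopen_of2 (c_al (s ++ [2 * k + 2])) (c_dl (s ++ [2 * k + 3]))
          (fun a b => a < b)).isClosed
    · refine cl_all fun k => cl_imp ?_ ?_
      · exact (clopen_of (c_code h s k) (fun b => b = false)).isOpen
      · exact isClosed_eq (c_hd (s ++ [2 * k + 2])) (c_uu s k)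
    · refine cl_all fun k => cl_all fun m => cl_imp ?_ ?_
      · exact (clopen_of (c_dl (s ++ [2 * k + 2])) (fun d => m < d)).isOpen
      · exact isClosed_eq (c_at (c_uu s k) m) (c_at (c_hd (s ++ [1])) m)

theorem isClosed_Good (h : S_CODE1) : IsClosed {T : Tr | Good T} :=
  cl_all fun s => cl_Node h s

theorem analytic_Edge (h : S_CODE1) : AnalyticSet {p : X × X | Edge p.1 p.2} := by
  have e : {p : X × X | Edge p.1 p.2} =
      (fun T : Tr => (tl (T []), hd (T []))) '' {T : Tr | Good T} := by
    ext ⟨a, b⟩
    constructor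
    · rintro ⟨n, Δ, α, T, hT, h0⟩
      refine ⟨T, hT, ?_⟩
      show (tl (T []), hd (T [])) = (a, b)
      rw [h0]
      rfl
    · rintro ⟨T, hT, h0⟩
      have h1 : tl (T []) = a := congrArg Prod.fst h0
      have h2 : hd (T []) = b := congrArg Prod.snd h0
      exact ⟨dp (T []), dl (T []), al (T []), T, hT, by rw [← h1, ← h2]; rfl⟩
  rw [e]
  exact (isClosed_Good h).analyticSet.image_of_continuous ((c_tl []).prodMk (c_hd []))

/-- **ANA** -/
theorem ANA (h : S_CODE1) : S_ANA := by
  have h1 := analytic_Edge h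
  have h2 : AnalyticSet {p : X × X | Edge p.2 p.1} := by
    have e : {p : X × X | Edge p.2 p.1} = Prod.swap '' {p : X × X | Edge p.1 p.2} := by
      rw [Set.image_swap_eq_preimage_swap]
      rfl
    rw [e]
    exact h1.image_of_continuous continuous_swap
  have h3 : AnalyticSet {p : X × X | p.1 ≠ p.2} := by
    have ho : IsOpen {p : X × X | p.1 ≠ p.2} := isOpen_ne_fun continuous_fst continuous_snd
    have := ho.analyticSet_image continuous_id
    rwa [Set.image_id] at this
  have h12 : AnalyticSet ({p : X × X | Edge p.1 p.2} ∪ {p : X × X | Edge p.2 p.1}) := by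
    rw [Set.union_eq_iUnion]
    exact AnalyticSet.iUnion fun b => by cases b <;> assumption
  have h123 : AnalyticSet ({p : X × X | p.1 ≠ p.2} ∩
      ({p : X × X | Edge p.1 p.2} ∪ {p : X × X | Edge p.2 p.1})) := by
    rw [Set.inter_eq_iInter]
    exact AnalyticSet.iInter fun b => by cases b <;> assumption
  have e : {p : X × X | G.Adj p.1 p.2} = {p : X × X | p.1 ≠ p.2} ∩
      ({p : X × X | Edge p.1 p.2} ∪ {p : X × X | Edge p.2 p.1}) := by
    ext p
    unfold G
    rw [Set.mem_ofPred_eq, SimpleGraph.fromRel_adj]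
    rfl
  unfold S_ANA
  rw [e]
  exact h123

end Pool.Agent.W372.AG
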